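import Pool.Agent.H22.LG.Stm

set_option autoImplicit false

namespace H66.LG
open H22.LG

theorem t_KLE : S_KLE := by
  intro B _ _ a b ha hb hab haa hbb hc P
  right
  intro hP
  classical
  have hK : ∀ x ∈ Subgroup.closure ({a, b} : Set B), x ^ 2 = 1 := by
    have hcomm : ∀ x ∈ Subgroup.closure ({a, b} : Set B), a * x = x * a ∧ b * x = x * b := by
      intro x hx
      induction hx using Subgroup.closure_induction with
      | mem x hx =>
        rcases hx with rfl | hx
        · exact ⟨rfl, hc.symm⟩
        · rw [Set.mem_singleton_iff] at hx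
          subst hx
          exact ⟨hc, rfl⟩
      | one => simp
      | mul x y _ _ h1 h2 =>
        exact ⟨by rw [← mul_assoc, h1.1, mul_assoc, h2.1, mul_assoc],
          by rw [← mul_assoc, h1.2, mul_assoc, h2.2, mul_assoc]⟩
      | inv x _ h1 =>
        have e1 : Commute a x := h1.1
        have e2 : Commute b x := h1.2
        exact ⟨e1.inv_right, e2.inv_right⟩
    have hcomm2 : ∀ x ∈ Subgroup.closure ({a, b} : Set B),
        ∀ y ∈ Subgroup.closure ({a, b} : Set B), y * x = x * y := by
      intro x hx y hy
      induction hy using Subgroup.closure_induction with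
      | mem y hy =>
        rcases hy with rfl | hy
        · exact (hcomm x hx).1
        · rw [Set.mem_singleton_iff] at hy
          subst hy
          exact (hcomm x hx).2
      | one => simp
      | mul y z _ _ h1 h2 => rw [mul_assoc, h2, ← mul_assoc, h1, mul_assoc]
      | inv y _ h1 =>
        have e1 : Commute y x := h1
        exact e1.inv_left
    intro x hx
    induction hx using Subgroup.closure_induction with
    | mem x hx =>
      rcases hx with rfl | hx
      · rw [pow_two, haa]
      · rw [Set.mem_singleton_iff] at hx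
        subst hx
        rw [pow_two, hbb]
    | one => simp
    | mul x y hx hy h1 h2 =>
      have e1 : Commute x y := hcomm2 y hy x hx
      rw [e1.mul_pow, h1, h2, mul_one]
    | inv x _ h1 => rw [inv_pow, h1, inv_one]
  have hKp : IsPGroup 2 (Subgroup.closure ({a, b} : Set B)) := by
    intro x
    refine ⟨1, ?_⟩
    apply Subtype.ext
    rw [pow_one]
    exact hK x.1 x.2
  obtain ⟨Q, hQ⟩ := hKp.exists_le_sylow
  have hcyc : IsCyclic (Q : Subgroup B) := by
    let e := Sylow.equiv P Q
    exact isCyclic_of_surjective e.toMonoidHom e.surjective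
  have haQ : a ∈ (Q : Subgroup B) := hQ (Subgroup.subset_closure (by simp))
  have hbQ : b ∈ (Q : Subgroup B) := hQ (Subgroup.subset_closure (by simp))
  have : Fintype (Q : Subgroup B) := Fintype.ofFinite _
  have h1 := IsCyclic.card_pow_eq_one_le (α := (Q : Subgroup B)) (n := 2) (by norm_num)
  have h2 : ({1, ⟨a, haQ⟩, ⟨b, hbQ⟩} : Finset (Q : Subgroup B)) ⊆
      Finset.univ.filter (fun x : (Q : Subgroup B) => x ^ 2 = 1) := by
    intro x hx
    rw [Finset.mem_filter]
    refine ⟨Finset.mem_univ _, ?_⟩
    simp only [Finset.mem_insert, Finset.mem_singleton] at hx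
    rcases hx with rfl | rfl | rfl
    · simp
    · apply Subtype.ext
      rw [pow_two]
      exact haa
    · apply Subtype.ext
      rw [pow_two]
      exact hbb
  have h3 : ({1, ⟨a, haQ⟩, ⟨b, hbQ⟩} : Finset (Q : Subgroup B)).card = 3 := by
    rw [Finset.card_eq_three]
    refine ⟨1, ⟨a, haQ⟩, ⟨b, hbQ⟩, ?_, ?_, ?_, rfl⟩
    · intro h
      exact ha (congrArg Subtype.val h).symm
    · intro h
      exact hb (congrArg Subtype.val h).symm
    · intro h
      exact hab (congrArg Subtype.val h)
  have h4 := Finset.card_le_card h2
  rw [h3] at h4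
  have h5 : (Finset.univ.filter (fun x : (Q : Subgroup B) => x ^ 2 = 1)).card ≤ 2 := by
    convert h1
  omega

end H66.LG
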